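import Mathlib

/-! Definitions: splinters and the splinter locus. -/

namespace Pool.Agent.R830.Spl

/-- A commutative ring `A` is a splinter: it is Noetherian, and every finite `A`-algebra `B`
for which `Spec B → Spec A` is surjective has an `A`-linear map `ρ : B → A` with `ρ 1 = 1`. -/
def IsSplinter (A : Type) [CommRing A] : Prop :=
  IsNoetherianRing A ∧
    ∀ (B : Type) [CommRing B] [Algebra A B], Module.Finite A B →
      Function.Surjective (PrimeSpectrum.comap (algebraMap A B)) →
        ∃ ρ : B →ₗ[A] A, ρ 1 = 1

/-- The splinter locus of `R`: the primes `p` for which the local ring `R_p` is a splinter. -/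
def splinterLocus (R : Type) [CommRing R] : Set (PrimeSpectrum R) :=
  {p | IsSplinter (Localization.AtPrime p.asIdeal)}

end Pool.Agent.R830.Spl
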