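import Mathlib

/-! The filtration argument: `Z ^ (6 p^2)` lies in `(p, x, y)` after adjoining roots. -/

namespace Pool.Agent.R830.Spl

open MvPolynomial

/-- The ideal generated by the monomials `π^i X^j Y^k` of weight at least `E`. -/
def filt {T : Type*} [CommRing T] (P X Y : T) (E : ℕ) : Ideal T :=
  Ideal.span {t | ∃ i j k : ℕ, E ≤ 7 * i + j + k ∧ t = P ^ i * X ^ j * Y ^ k}

variable {T : Type*} [CommRing T] {P X Y : T}

theorem filt_mono {E F : ℕ} (h : E ≤ F) : filt P X Y F ≤ filt P X Y E := by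
  apply Ideal.span_mono
  rintro t ⟨i, j, k, hE, rfl⟩
  exact ⟨i, j, k, h.trans hE, rfl⟩

theorem filt_mul {E F : ℕ} {u v : T} (hu : u ∈ filt P X Y E) (hv : v ∈ filt P X Y F) :
    u * v ∈ filt P X Y (E + F) := by
  have h : filt P X Y E * filt P X Y F ≤ filt P X Y (E + F) := by
    unfold filt
    rw [Ideal.span_mul_span']
    apply Ideal.span_mono
    rintro t ht
    obtain ⟨a, ⟨i, j, k, hE, rfl⟩, b, ⟨i', j', k', hF, rfl⟩, rfl⟩ := Set.mem_mul.1 ht
    refine ⟨i + i', j + j', k + k', by omega, by ring⟩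
  exact h (Ideal.mul_mem_mul hu hv)

theorem filt_zero (u : T) : u ∈ filt P X Y 0 := by
  have : (1 : T) ∈ filt P X Y 0 := Ideal.subset_span ⟨0, 0, 0, by simp, by simp⟩
  simpa using Ideal.mul_mem_left _ u this

theorem filt_pow {E : ℕ} {u : T} (hu : u ∈ filt P X Y E) (m : ℕ) :
    u ^ m ∈ filt P X Y (E * m) := by
  induction m with
  | zero => simpa using filt_zero _
  | succ m ih =>
    rw [pow_succ, Nat.mul_succ]
    exact filt_mul ih hu

theorem filt_P (m : ℕ) : P ^ m ∈ filt P X Y (7 * m) :=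
  Ideal.subset_span ⟨m, 0, 0, by simp, by simp⟩

theorem filt_X (m : ℕ) : X ^ m ∈ filt P X Y m :=
  Ideal.subset_span ⟨0, m, 0, by simp, by simp⟩

theorem filt_Y (m : ℕ) : Y ^ m ∈ filt P X Y m :=
  Ideal.subset_span ⟨0, 0, m, by simp, by simp⟩

theorem filt_le_span {q E : ℕ} (hq : 1 ≤ q) (hE : 9 * (q - 1) < E) :
    filt P X Y E ≤ Ideal.span {P ^ q, X ^ q, Y ^ q} := by
  unfold filt
  rw [Ideal.span_le]
  rintro t ⟨i, j, k, h, rfl⟩
  have hc : q ≤ i ∨ q ≤ j ∨ q ≤ k := by omega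
  have hP : P ^ q ∈ Ideal.span {P ^ q, X ^ q, Y ^ q} := Ideal.subset_span (by simp)
  have hX : X ^ q ∈ Ideal.span {P ^ q, X ^ q, Y ^ q} := Ideal.subset_span (by simp)
  have hY : Y ^ q ∈ Ideal.span {P ^ q, X ^ q, Y ^ q} := Ideal.subset_span (by simp)
  show P ^ i * X ^ j * Y ^ k ∈ _
  rcases hc with hc | hc | hc
  · rw [← Nat.sub_add_cancel hc, pow_add]
    exact Ideal.mul_mem_right _ _ (Ideal.mul_mem_right _ _ (Ideal.mul_mem_left _ _ hP))
  · rw [← Nat.sub_add_cancel hc, pow_add]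
    exact Ideal.mul_mem_right _ _ (Ideal.mul_mem_left _ _ (Ideal.mul_mem_left _ _ hX))
  · rw [← Nat.sub_add_cancel hc, pow_add]
    exact Ideal.mul_mem_left _ _ (Ideal.mul_mem_left _ _ hY)

/-- evaluating a homogeneous polynomial of degree `d` at elements of weight `e` -/
theorem filt_aeval {E d : ℕ} {h : MvPolynomial (Fin 3) ℤ} (hh : h.IsHomogeneous d)
    {a : Fin 3 → T} (ha : ∀ i, a i ∈ filt P X Y E) : aeval a h ∈ filt P X Y (E * d) := by
  rw [aeval_def, eval₂_eq]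
  apply Ideal.sum_mem
  intro m hm
  apply Ideal.mul_mem_left
  have hd : d = m 0 + m 1 + m 2 := by
    have := hh (mem_support_iff.1 hm)
    rw [← this]
    simp [Finsupp.weight_apply, Finsupp.sum_fintype, Fin.sum_univ_three]
  have hprod : ∏ i ∈ m.support, a i ^ m i = a 0 ^ m 0 * a 1 ^ m 1 * a 2 ^ m 2 := by
    rw [Finset.prod_subset (Finset.subset_univ m.support)]
    · simp [Fin.prod_univ_three]
    · intro i _ hi
      simp [Finsupp.notMem_support_iff.1 hi]
  rw [hprod, hd, mul_add, mul_add]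
  exact filt_mul (filt_mul (filt_pow (ha 0) _) (filt_pow (ha 1) _)) (filt_pow (ha 2) _)

/-- The polynomial `((u+v+w)^p - u^p - v^p - w^p)/p`. -/
theorem exists_h (p : ℕ) [hp : Fact p.Prime] : ∃ h : MvPolynomial (Fin 3) ℤ,
    h.IsHomogeneous p ∧
    (MvPolynomial.X 0 + MvPolynomial.X 1 + MvPolynomial.X 2) ^ p =
      MvPolynomial.X 0 ^ p + MvPolynomial.X 1 ^ p + MvPolynomial.X 2 ^ p + C (p : ℤ) * h ∧
    ∃ g : MvPolynomial (Fin 3) ℤ, expand p h = h ^ p + C (p : ℤ) * g := by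
  have h1 : C (p : ℤ) ∣ ((MvPolynomial.X 0 + MvPolynomial.X 1 + MvPolynomial.X 2) ^ p -
      (MvPolynomial.X 0 ^ p + MvPolynomial.X 1 ^ p + MvPolynomial.X 2 ^ p) :
        MvPolynomial (Fin 3) ℤ) := by
    rw [C_dvd_iff_zmod]
    simp only [map_sub, map_add, map_pow, map_X]
    have : CharP (MvPolynomial (Fin 3) (ZMod p)) p := inferInstance
    rw [add_pow_char, add_pow_char, sub_self]
  obtain ⟨h, hh⟩ := h1
  have hp0 : (p : ℤ) ≠ 0 := by exact_mod_cast hp.out.ne_zero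
  refine ⟨h, ?_, ?_, ?_⟩
  · have hom : (C (p : ℤ) * h).IsHomogeneous p := by
      rw [← hh]
      have hX : ∀ i : Fin 3, (MvPolynomial.X i : MvPolynomial (Fin 3) ℤ).IsHomogeneous 1 :=
        fun i => isHomogeneous_X _ i
      refine IsHomogeneous.sub ?_ ?_
      · have := (((hX 0).add (hX 1)).add (hX 2)).pow p
        simpa using this
      · have h0 := (hX 0).pow p
        have h1 := (hX 1).pow p
        have h2 := (hX 2).pow p
        simp only [one_mul] at h0 h1 h2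
        exact (h0.add h1).add h2
    intro m hm
    apply hom
    rw [coeff_C_mul]
    exact mul_ne_zero hp0 hm
  · rw [← hh]; ring
  · have h2 : C (p : ℤ) ∣ expand p h - h ^ p := by
      rw [C_dvd_iff_zmod]
      rw [map_sub, map_pow, map_expand, expand_zmod, sub_self]
    obtain ⟨g, hg⟩ := h2
    exact ⟨g, by rw [← hg]; ring⟩

/-- Frobenius modulo `p` for a difference. -/
theorem sub_pow_mod {T : Type*} [CommRing T] (p : ℕ) [hp : Fact p.Prime] (u v : T) :
    ∃ t : T, (u - v) ^ p = u ^ p - v ^ p + (p : T) * t := by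
  have h1 : C (p : ℤ) ∣ ((MvPolynomial.X 0 - MvPolynomial.X 1) ^ p -
      (MvPolynomial.X 0 ^ p - MvPolynomial.X 1 ^ p) : MvPolynomial (Fin 2) ℤ) := by
    rw [C_dvd_iff_zmod]
    simp only [map_sub, map_pow, map_X]
    rw [sub_pow_char, sub_self]
  obtain ⟨h, hh⟩ := h1
  refine ⟨aeval ![u, v] h, ?_⟩
  have := congrArg (aeval ![u, v]) hh
  simp only [map_sub, map_pow, aeval_X, map_mul] at this
  simp at this
  linear_combination this

theorem key {T : Type*} [CommRing T] [IsDomain T] (p : ℕ) [hp : Fact p.Prime] (hp11 : 11 ≤ p)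
    (hT : ∀ u v w : T, v ≠ 0 → u ^ p = v ^ p * w → v ∣ u)
    (P X Y Z : T) (hP : P ≠ 0) (hPp : P ^ (p ^ 2) = (p : T))
    (hf : X ^ (7 * p ^ 2) + Y ^ (7 * p ^ 2) + Z ^ (7 * p ^ 2) = 0) :
    Z ^ (6 * p ^ 2) ∈ Ideal.span {P ^ (p ^ 2), X ^ (p ^ 2), Y ^ (p ^ 2)} := by
  obtain ⟨h, hhom, hh, g, hg⟩ := exists_h p
  set a := X ^ 7 with ha
  set b := Y ^ 7 with hb
  set c := Z ^ 7 with hc
  -- values
  set h0 : T := aeval ![a, b, c] h with hh0
  set h1 : T := aeval ![a ^ p, b ^ p, c ^ p] h with hh1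
  set f1 : T := a ^ p + b ^ p + c ^ p with hf1
  have e0 : (a + b + c) ^ p = f1 + (p : T) * h0 := by
    have := congrArg (aeval ![a, b, c]) hh
    simpa using this
  have hf2 : (a ^ p) ^ p + (b ^ p) ^ p + (c ^ p) ^ p = 0 := by
    rw [ha, hb, hc, ← hf]
    ring
  have e1 : f1 ^ p = (p : T) * h1 := by
    have := congrArg (aeval ![a ^ p, b ^ p, c ^ p]) hh
    simp at this
    rw [hf2, zero_add] at this
    simpa using this
  have e2 : h1 = h0 ^ p + (p : T) * aeval ![a, b, c] g := by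
    have := congrArg (aeval ![a, b, c]) hg
    rw [aeval_expand] at this
    simp only [map_add, map_pow, map_mul] at this
    have h3 : (fun i => ![a, b, c] i ^ p) = ![a ^ p, b ^ p, c ^ p] := by
      funext i; fin_cases i <;> rfl
    rw [Pi.pow_def, h3] at this
    simpa using this
  have hPp0 : P ^ p ≠ 0 := pow_ne_zero _ hP
  have hPP : (P ^ p) ^ p = (p : T) := by rw [← hPp]; ring
  -- f1 is divisible by P^p
  obtain ⟨τ, hτ⟩ : P ^ p ∣ f1 := hT f1 (P ^ p) h1 hPp0 (by rw [hPP, e1])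
  have hτp : τ ^ p = h1 := by
    have h4 : (P ^ p) ^ p * τ ^ p = (P ^ p) ^ p * h1 := by
      rw [← mul_pow, ← hτ, e1, hPP]
    exact mul_left_cancel₀ (pow_ne_zero _ hPp0) h4
  obtain ⟨t, ht⟩ := sub_pow_mod p τ h0
  obtain ⟨θ, hθ⟩ : P ^ p ∣ τ - h0 := by
    apply hT (τ - h0) (P ^ p) (t + aeval ![a, b, c] g) hPp0
    rw [hPP, ht, hτp, e2]; ring
  have hf1' : f1 = P ^ p * h0 + P ^ (2 * p) * θ := by
    rw [hτ, sub_eq_iff_eq_add.1 hθ]; ring
  -- c has weight 7
  obtain ⟨σ, hσ⟩ : P ∣ a + b + c := by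
    have hpow : ∃ m, p ^ 2 = p + m ∧ p ≤ m := by
      refine ⟨p ^ 2 - p, ?_, ?_⟩
      · have : p ≤ p ^ 2 := Nat.le_self_pow (by norm_num) p
        omega
      · have : p ^ 2 = p * p := by ring
        have h2 : 2 * p ≤ p * p := Nat.mul_le_mul_right p hp.out.two_le
        omega
    obtain ⟨m, hm, -⟩ := hpow
    apply hT _ P (τ + P ^ m * h0) hP
    rw [e0, hτ, ← hPp, hm, pow_add]; ring
  have wa : a ∈ filt P X Y 7 := filt_X 7
  have wb : b ∈ filt P X Y 7 := filt_Y 7
  have wP : P ∈ filt P X Y 7 := by simpa using filt_P (P := P) (X := X) (Y := Y) 1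
  have wc : c ∈ filt P X Y 7 := by
    have : c = P * σ - a - b := by rw [← hσ]; ring
    rw [this]
    exact Ideal.sub_mem _ (Ideal.sub_mem _ (Ideal.mul_mem_right _ _ wP) wa) wb
  have wh0 : h0 ∈ filt P X Y (7 * p) := by
    apply filt_aeval hhom
    intro i; fin_cases i
    · exact wa
    · exact wb
    · exact wc
  have wf1 : f1 ∈ filt P X Y (14 * p) := by
    rw [hf1']
    apply Ideal.add_mem
    · have := filt_mul (filt_P (P := P) (X := X) (Y := Y) p) wh0
      have e : 7 * p + 7 * p = 14 * p := by ring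
      rwa [e] at this
    · have := filt_P (P := P) (X := X) (Y := Y) (2 * p)
      have e : 7 * (2 * p) = 14 * p := by ring
      rw [e] at this
      exact Ideal.mul_mem_right _ _ this
  -- the expansion
  set J := Ideal.span {P ^ (p ^ 2), X ^ (p ^ 2), Y ^ (p ^ 2)} with hJ
  have hXJ : X ^ (p ^ 2) ∈ J := Ideal.subset_span (by simp)
  have hYJ : Y ^ (p ^ 2) ∈ J := Ideal.subset_span (by simp)
  set N := 6 * p / 7 with hN
  have hN1 : 7 * N ≤ 6 * p := Nat.mul_div_le _ _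
  have hN2 : 6 * p ≤ 7 * N + 6 := by omega
  have hterm : ∀ i j k, i + j + k = N → f1 ^ i * (a ^ p) ^ j * (b ^ p) ^ k ∈ J := by
    intro i j k hijk
    by_cases hj : p ≤ 7 * j
    · apply Ideal.mul_mem_right
      apply Ideal.mul_mem_left
      have : (a ^ p) ^ j = X ^ (p ^ 2) * X ^ (p * (7 * j - p)) := by
        rw [ha, ← pow_mul, ← pow_mul, ← pow_add]
        congr 1
        have : p ^ 2 + p * (7 * j - p) = p * (p + (7 * j - p)) := by ring
        rw [this, Nat.add_sub_cancel' hj]; ring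
      rw [this]
      exact Ideal.mul_mem_right _ _ hXJ
    by_cases hk : p ≤ 7 * k
    · apply Ideal.mul_mem_left
      have : (b ^ p) ^ k = Y ^ (p ^ 2) * Y ^ (p * (7 * k - p)) := by
        rw [hb, ← pow_mul, ← pow_mul, ← pow_add]
        congr 1
        have : p ^ 2 + p * (7 * k - p) = p * (p + (7 * k - p)) := by ring
        rw [this, Nat.add_sub_cancel' hk]; ring
      rw [this]
      exact Ideal.mul_mem_right _ _ hYJ
    have w1 := filt_pow wf1 i
    have w2 := filt_pow (filt_pow wa p) j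
    have w3 := filt_pow (filt_pow wb p) k
    have w := filt_mul (filt_mul w1 w2) w3
    apply filt_le_span (q := p ^ 2) (Nat.one_le_pow _ _ (by omega)) ?_ w
    zify [Nat.one_le_pow 2 p (by omega)]
    push Not at hj hk
    have hi : (i : ℤ) = N - j - k := by omega
    rw [hi]
    zify at hj hk hN1 hN2 hp11
    nlinarith
  have hcN : (c ^ p) ^ N ∈ J := by
    have e : c ^ p = f1 + (-(a ^ p) + -(b ^ p)) := by rw [hf1]; ring
    rw [e, add_pow f1 _ N]
    apply Ideal.sum_mem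
    intro i hi
    rw [Finset.mem_range] at hi
    apply Ideal.mul_mem_right
    rw [add_pow (-(a ^ p)) (-(b ^ p)) (N - i), Finset.mul_sum]
    apply Ideal.sum_mem
    intro j hj
    rw [Finset.mem_range] at hj
    have h5 := hterm i j (N - i - j) (by omega)
    have e2 : f1 ^ i * ((-(a ^ p)) ^ j * (-(b ^ p)) ^ (N - i - j) * ((N - i).choose j : T)) =
        ((-1) ^ j * (-1) ^ (N - i - j) * ((N - i).choose j : T)) *
          (f1 ^ i * (a ^ p) ^ j * (b ^ p) ^ (N - i - j)) := by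
      rw [neg_pow (a ^ p), neg_pow (b ^ p)]; ring
    rw [e2]
    exact Ideal.mul_mem_left _ _ h5
  have hs : 6 * p ^ 2 = 7 * p * N + (6 * p ^ 2 - 7 * p * N) := by
    have : 7 * p * N ≤ 6 * p ^ 2 := by nlinarith
    omega
  have : Z ^ (6 * p ^ 2) = (c ^ p) ^ N * Z ^ (6 * p ^ 2 - 7 * p * N) := by
    conv_lhs => rw [hs, pow_add]
    rw [hc, ← pow_mul, ← pow_mul, mul_assoc 7 p N]
  rw [this]
  exact Ideal.mul_mem_right _ _ hcN

end Pool.Agent.R830.Spl
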