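import Mathlib
import Pool.Agent.R830.Spl.Defs

/-! A Noetherian normal domain in which positive integers are units is a splinter. -/

namespace Pool.Agent.R830.Spl

attribute [local instance] FractionRing.liftAlgebra FractionRing.isScalarTower_liftAlgebra

/-- trace splitting for a finite extension of domains -/
theorem exists_split_domain (D C : Type) [CommRing D] [IsDomain D] [IsIntegrallyClosed D]
    [CommRing C] [IsDomain C] [Algebra D C] [Module.Finite D C]
    (hinj : Function.Injective (algebraMap D C))
    (hu : ∀ n : ℕ, n ≠ 0 → IsUnit (n : D)) : ∃ ρ : C →ₗ[D] D, ρ 1 = 1 := by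
  have : FaithfulSMul D C := (faithfulSMul_iff_algebraMap_injective D C).mpr hinj
  have : Module.IsTorsionFree D C := inferInstance
  have hmem : ∀ c : C, ∃ d : D, algebraMap D (FractionRing D) d =
      Algebra.trace (FractionRing D) (FractionRing C) (algebraMap C (FractionRing C) c) := by
    intro c
    have h1 : IsIntegral D (algebraMap C (FractionRing C) c) :=
      (Algebra.IsIntegral.isIntegral (R := D) c).algebraMap
    exact IsIntegrallyClosed.isIntegral_iff.1 (Algebra.isIntegral_trace h1)
  choose τ hτ using hmem
  have hi : Function.Injective (algebraMap D (FractionRing D)) :=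
    IsFractionRing.injective D (FractionRing D)
  let tr : C →ₗ[D] D :=
    { toFun := τ
      map_add' := by
        intro a b
        apply hi
        rw [hτ, map_add, map_add, map_add, hτ, hτ]
      map_smul' := by
        intro d a
        apply hi
        simp only [RingHom.id_apply, smul_eq_mul, map_mul]
        rw [hτ, hτ, Algebra.smul_def, map_mul]
        rw [← IsScalarTower.algebraMap_apply D C (FractionRing C),
          IsScalarTower.algebraMap_apply D (FractionRing D) (FractionRing C),
          ← Algebra.smul_def, map_smul, smul_eq_mul] }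
  have h1 : algebraMap D (FractionRing D) (tr 1) =
      algebraMap D (FractionRing D)
        (Module.finrank (FractionRing D) (FractionRing C) : D) := by
    show algebraMap D (FractionRing D) (τ 1) = _
    rw [hτ, map_one, map_natCast]
    have := Algebra.trace_algebraMap (S := FractionRing C) (1 : FractionRing D)
    rw [map_one] at this
    rw [this]; simp
  have h2 := hi h1
  have h3 : Module.finrank (FractionRing D) (FractionRing C) ≠ 0 :=
    Module.finrank_pos.ne'
  obtain ⟨u, hu⟩ := hu _ h3
  refine ⟨(↑u⁻¹ : D) • tr, ?_⟩
  rw [LinearMap.smul_apply, h2, ← hu]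
  simp

theorem isSplinter_of_normal (D : Type) [CommRing D] [IsDomain D] [IsNoetherianRing D]
    [IsIntegrallyClosed D] (hu : ∀ n : ℕ, n ≠ 0 → IsUnit (n : D)) : IsSplinter D := by
  refine ⟨inferInstance, ?_⟩
  intro B _ _ _ hs
  obtain ⟨Q, hQ⟩ := hs ⊥
  have hinj : Function.Injective (algebraMap D (B ⧸ Q.asIdeal)) := by
    rw [injective_iff_map_eq_zero]
    intro d hd
    have h1 : algebraMap D B d ∈ Q.asIdeal := by
      rwa [IsScalarTower.algebraMap_apply D B (B ⧸ Q.asIdeal), Ideal.Quotient.algebraMap_eq,
        Ideal.Quotient.eq_zero_iff_mem] at hd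
    have h2 : d ∈ (PrimeSpectrum.comap (algebraMap D B) Q).asIdeal := h1
    rw [hQ] at h2
    simpa using h2
  have : Q.asIdeal.IsPrime := Q.isPrime
  obtain ⟨ρ, hρ⟩ := exists_split_domain D (B ⧸ Q.asIdeal) hinj hu
  refine ⟨ρ.comp (Ideal.Quotient.mkₐ D Q.asIdeal).toLinearMap, ?_⟩
  simpa using hρ

end Pool.Agent.R830.Spl
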