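import Mathlib

/-! The ring `Z[x,y,z]/(x^7+y^7+z^7)`. -/

namespace Pool.Agent.R830.Spl

open Polynomial

/-- `Z[x,y]` -/
abbrev A := MvPolynomial (Fin 2) ℤ

/-- `x^7 + y^7` -/
noncomputable def g : A := MvPolynomial.X 0 ^ 7 + MvPolynomial.X 1 ^ 7

/-- `T^7 + (x^7 + y^7)` -/
noncomputable def f : A[X] := X ^ 7 + C g

/-- `Z[x,y,z]/(x^7+y^7+z^7)` -/
abbrev R := AdjoinRoot f

theorem f_monic : f.Monic := by
  unfold f
  exact monic_X_pow_add_C _ (by norm_num)

theorem f_natDegree : f.natDegree = 7 := by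
  unfold f
  exact natDegree_X_pow_add_C

/-- the map `x ↦ t`, `y ↦ -t` -/
noncomputable def φ : A →+* ℤ[X] := (MvPolynomial.aeval ![X, -X]).toRingHom

theorem φ_g : φ g = 0 := by
  simp [φ, g]
  ring

theorem sq_mem (u : A) (hu : u ∈ (RingHom.ker φ) ^ 2) :
    MvPolynomial.pderiv 0 u ∈ RingHom.ker φ := by
  rw [pow_two] at hu
  refine Submodule.mul_induction_on hu ?_ ?_
  · intro a ha b hb
    rw [Derivation.leibniz, smul_eq_mul, smul_eq_mul]
    exact Ideal.add_mem _ (Ideal.mul_mem_right _ _ ha) (Ideal.mul_mem_right _ _ hb)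
  · intro a b ha hb
    rw [map_add]
    exact Ideal.add_mem _ ha hb

theorem g_notMem : g ∉ (RingHom.ker φ) ^ 2 := by
  intro h
  have := sq_mem _ h
  rw [RingHom.mem_ker] at this
  simp [φ, g] at this

theorem f_irreducible : Irreducible f := by
  have hp : (RingHom.ker φ).IsPrime := RingHom.ker_isPrime φ
  have he : f.IsEisensteinAt (RingHom.ker φ) := by
    refine ⟨?_, ?_, ?_⟩
    · rw [f_monic.leadingCoeff]
      exact fun h => hp.ne_top ((Ideal.eq_top_iff_one _).2 h)
    · intro n hn
      rw [f_natDegree] at hn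
      have : f.coeff n = if n = 0 then g else 0 := by
        unfold f
        rw [coeff_add, coeff_X_pow, coeff_C, if_neg hn.ne, zero_add]
      rw [this]
      split_ifs
      · exact φ_g
      · exact Ideal.zero_mem _
    · have : f.coeff 0 = g := by
        unfold f
        simp
      rw [this]
      exact g_notMem
  exact he.irreducible hp f_monic.isPrimitive (by rw [f_natDegree]; norm_num)

theorem f_prime : Prime f := f_irreducible.prime

instance : IsDomain R := AdjoinRoot.isDomain_of_prime f_prime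

/-- `x` in `R` -/
noncomputable def x : R := algebraMap A R (MvPolynomial.X 0)
/-- `y` in `R` -/
noncomputable def y : R := algebraMap A R (MvPolynomial.X 1)
/-- `z` in `R` -/
noncomputable def z : R := AdjoinRoot.root f

theorem rel : x ^ 7 + y ^ 7 + z ^ 7 = 0 := by
  have h := AdjoinRoot.eval₂_root f
  unfold f at h
  rw [eval₂_add, eval₂_pow, eval₂_X, eval₂_C] at h
  have e : AdjoinRoot.of f g = x ^ 7 + y ^ 7 := by
    show algebraMap A R g = _
    unfold g
    rw [map_add, map_pow, map_pow]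
    rfl
  have h2 : z ^ 7 + AdjoinRoot.of f g = 0 := h
  rw [e] at h2
  rw [← h2]; ring

theorem algebraMap_inj : Function.Injective (algebraMap A R) :=
  AdjoinRoot.of.injective_of_degree_ne_zero (by
    rw [degree_eq_natDegree f_monic.ne_zero, f_natDegree]; norm_num)

instance : Module.Finite A R := (AdjoinRoot.powerBasis' f_monic).finite

instance : Algebra.FiniteType ℤ R := by
  have : Algebra.FiniteType A R := inferInstance
  exact Algebra.FiniteType.trans (S := A) inferInstance this

/-- lift ring homs -/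
noncomputable def liftR {S : Type*} [CommRing S] (a b c : S) (h : a ^ 7 + b ^ 7 + c ^ 7 = 0) :
    R →+* S :=
  AdjoinRoot.lift (MvPolynomial.aeval ![a, b] : A →ₐ[ℤ] S).toRingHom c (by
    unfold f g
    rw [eval₂_add, eval₂_pow, eval₂_X, eval₂_C]
    simp
    rw [← h]; ring)

theorem liftR_x {S : Type*} [CommRing S] (a b c : S) (h : a ^ 7 + b ^ 7 + c ^ 7 = 0) :
    liftR a b c h x = a := by
  unfold liftR x
  rw [AdjoinRoot.algebraMap_eq, AdjoinRoot.lift_of]
  simp

theorem liftR_y {S : Type*} [CommRing S] (a b c : S) (h : a ^ 7 + b ^ 7 + c ^ 7 = 0) :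
    liftR a b c h y = b := by
  unfold liftR y
  rw [AdjoinRoot.algebraMap_eq, AdjoinRoot.lift_of]
  simp

theorem liftR_z {S : Type*} [CommRing S] (a b c : S) (h : a ^ 7 + b ^ 7 + c ^ 7 = 0) :
    liftR a b c h z = c := by
  unfold liftR z
  rw [AdjoinRoot.lift_root]

theorem hom_ext {S : Type*} [CommRing S] (φ ψ : R →+* S) (hx : φ x = ψ x) (hy : φ y = ψ y)
    (hz : φ z = ψ z) : φ = ψ := by
  apply AdjoinRoot.ringHom_ext
  · apply MvPolynomial.ringHom_ext
    · intro n; simp
    · intro i; fin_cases i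
      · exact hx
      · exact hy
  · exact hz

/-- the swap of `x` and `z` -/
noncomputable def σ₀ : R →+* R := liftR z y x (by rw [← rel]; ring)

theorem σ₀_x : σ₀ x = z := liftR_x ..
theorem σ₀_y : σ₀ y = y := liftR_y ..
theorem σ₀_z : σ₀ z = x := liftR_z ..

theorem σ₀_σ₀ : σ₀.comp σ₀ = RingHom.id R := by
  apply hom_ext <;> simp [σ₀_x, σ₀_y, σ₀_z]

/-- the swap as an automorphism -/
noncomputable def σ : R ≃+* R :=
  RingEquiv.ofRingHom σ₀ σ₀ σ₀_σ₀ σ₀_σ₀

end Pool.Agent.R830.Spl
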