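import Mathlib
import Pool.Agent.R830.Spl.Ring

/-! `7 w ∈ R` for every `w` in the fraction field integral over `R`. -/

namespace Pool.Agent.R830.Spl

open Polynomial

attribute [local instance] FractionRing.liftAlgebra FractionRing.isScalarTower_liftAlgebra

/-- fraction field of `A` -/
abbrev KA := FractionRing A
/-- fraction field of `R` -/
abbrev KR := FractionRing R

instance : FaithfulSMul A R := (faithfulSMul_iff_algebraMap_injective A R).mpr algebraMap_inj

noncomputable instance : Algebra KA KR := FractionRing.liftAlgebra A KR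
instance : IsScalarTower A KA KR := FractionRing.isScalarTower_liftAlgebra A KR
instance : FiniteDimensional KA KR := inferInstance

/-- `z` in the fraction field -/
noncomputable def zK : KR := algebraMap R KR z

theorem aeval_zK : aeval zK (f.map (algebraMap A KA)) = 0 := by
  rw [aeval_map_algebraMap]
  unfold zK
  rw [aeval_algebraMap_apply]
  have : aeval z f = 0 := by
    unfold z
    exact AdjoinRoot.eval₂_root f
  rw [this, map_zero]

theorem minpoly_zK : minpoly KA zK = f.map (algebraMap A KA) := by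
  symm
  apply minpoly.eq_of_irreducible_of_monic
  · exact (f_monic.irreducible_iff_irreducible_map_fraction_map).1 f_irreducible
  · exact aeval_zK
  · exact f_monic.map _

theorem int_zK : IsIntegral A zK := by
  refine ⟨f, f_monic, ?_⟩
  have := aeval_zK
  rwa [aeval_map_algebraMap] at this

theorem adjoin_z : Algebra.adjoin A {z} = ⊤ := AdjoinRoot.adjoinRoot_eq_top

theorem adjoin_zK_A : Algebra.adjoin A {zK} = (IsScalarTower.toAlgHom A R KR).range := by
  have : ({zK} : Set KR) = (IsScalarTower.toAlgHom A R KR) '' {z} := by simp [zK]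
  rw [this, ← AlgHom.map_adjoin, adjoin_z, Algebra.map_top]

theorem adjoin_zK : Algebra.adjoin KA {zK} = ⊤ := by
  have h := span_eq_top_localization_localization KA (nonZeroDivisors A) KR
    (v := (Set.univ : Set R)) (Submodule.span_univ)
  have h2 : Submodule.span KA (algebraMap R KR '' Set.univ) ≤
      Subalgebra.toSubmodule (Algebra.adjoin KA {zK}) := by
    rw [Submodule.span_le]
    rintro _ ⟨r, -, rfl⟩
    have h3 : algebraMap R KR r ∈ Algebra.adjoin A {zK} := by
      rw [adjoin_zK_A]
      exact ⟨r, rfl⟩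
    have h4 : Algebra.adjoin A {zK} ≤ (Algebra.adjoin KA {zK}).restrictScalars A := by
      apply Algebra.adjoin_le
      intro u hu
      rw [SetLike.mem_coe, Subalgebra.mem_restrictScalars]
      exact Algebra.subset_adjoin hu
    have h5 := h4 h3
    rwa [Subalgebra.mem_restrictScalars] at h5
  rw [h] at h2
  rw [← Algebra.toSubmodule_eq_top]
  exact top_le_iff.1 h2

theorem x_ne : x ≠ 0 := by
  intro h
  have : algebraMap A R (MvPolynomial.X 0) = algebraMap A R 0 := by rw [map_zero]; exact h
  exact MvPolynomial.X_ne_zero _ (algebraMap_inj this)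

theorem z_ne : z ≠ 0 := by
  intro h
  have h1 : σ₀ z = 0 := by rw [h, map_zero]
  rw [σ₀_z] at h1
  exact x_ne h1

theorem natCast_inj : Function.Injective (fun n : ℕ => (n : R)) := by
  intro m n h
  have : algebraMap A R (m : A) = algebraMap A R (n : A) := by simpa using h
  exact_mod_cast algebraMap_inj this

instance : CharZero R := ⟨natCast_inj⟩

theorem zK_ne : zK ≠ 0 := by
  intro h
  exact z_ne (IsFractionRing.injective R KR (by rw [map_zero]; exact h))

theorem f_deriv : derivative f = C 7 * X ^ 6 := by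
  unfold f
  rw [derivative_add, derivative_X_pow, derivative_C, add_zero]
  norm_num

theorem trace_step (w : KR) (hw : IsIntegral A w) : ∃ r : R, 7 * zK ^ 6 * w = algebraMap R KR r := by
  have h1 : w ∈ (Algebra.traceForm KA KR).dualSubmodule
      (Subalgebra.toSubmodule (Algebra.adjoin A {zK})) := by
    intro r hr
    rw [adjoin_zK_A] at hr
    obtain ⟨r, rfl⟩ := hr
    rw [Submodule.mem_one, Algebra.traceForm_apply]
    apply IsIntegrallyClosed.isIntegral_iff.1
    apply Algebra.isIntegral_trace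
    apply hw.mul
    exact (Algebra.IsIntegral.isIntegral (R := A) r).algebraMap
  rw [traceForm_dualSubmodule_adjoin A KA adjoin_zK int_zK, minpoly_zK] at h1
  have hd : aeval zK (derivative (f.map (algebraMap A KA))) = 7 * zK ^ 6 := by
    rw [derivative_map, aeval_map_algebraMap, f_deriv, map_mul, map_pow, aeval_X,
      aeval_C, map_ofNat]
  rw [hd] at h1
  rw [Submodule.mem_smul_pointwise_iff_exists] at h1
  obtain ⟨r, hr, rfl⟩ := h1
  rw [Subalgebra.mem_toSubmodule, adjoin_zK_A] at hr
  obtain ⟨r, rfl⟩ := hr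
  refine ⟨r, ?_⟩
  have h7' : (7 : KR) ≠ 0 := by
    have : ((7 : ℕ) : KR) ≠ 0 := Nat.cast_ne_zero.2 (by norm_num)
    exact_mod_cast this
  have h7 : (7 * zK ^ 6 : KR) ≠ 0 := mul_ne_zero h7' (pow_ne_zero _ zK_ne)
  rw [smul_eq_mul, mul_inv_cancel_left₀ h7]
  rfl

/-- the swap on the fraction field -/
noncomputable def σK : KR ≃+* KR := IsFractionRing.ringEquivOfRingEquiv σ

theorem σK_algebraMap (r : R) : σK (algebraMap R KR r) = algebraMap R KR (σ r) := by
  unfold σK
  exact IsFractionRing.ringEquivOfRingEquiv_algebraMap σ r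

theorem int_σK (w : KR) (hw : IsIntegral R w) : IsIntegral R (σK w) := by
  obtain ⟨q, hq, hq0⟩ := hw
  refine ⟨q.map σ.toRingHom, hq.map _, ?_⟩
  rw [eval₂_map]
  have h := congrArg σK.toRingHom hq0
  rw [map_zero, hom_eval₂] at h
  rw [← h]
  have e : (algebraMap R KR).comp σ.toRingHom = σK.toRingHom.comp (algebraMap R KR) :=
    RingHom.ext (fun r => (σK_algebraMap r).symm)
  rw [e]
  rfl

theorem trace_step' (w : KR) (hw : IsIntegral R w) :
    ∃ r : R, 7 * algebraMap R KR z ^ 6 * w = algebraMap R KR r := by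
  have : IsIntegral A w := isIntegral_trans (R := A) (A := R) w hw
  exact trace_step w this

theorem σ_σ (r : R) : σ (σ r) = r := by
  have := congrArg (fun h : R →+* R => h r) σ₀_σ₀
  exact this

theorem σ_z : σ z = x := σ₀_z
theorem σ_x : σ x = z := σ₀_x

theorem σK_σK (w : KR) : σK (σK w) = w := by
  obtain ⟨a, b, hb, rfl⟩ := IsFractionRing.div_surjective (A := R) w
  rw [map_div₀, map_div₀, σK_algebraMap, σK_algebraMap, σK_algebraMap, σK_algebraMap, σ_σ, σ_σ]

theorem trace_step_x (w : KR) (hw : IsIntegral R w) :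
    ∃ r : R, 7 * algebraMap R KR x ^ 6 * w = algebraMap R KR r := by
  obtain ⟨r, hr⟩ := trace_step' (σK w) (int_σK w hw)
  refine ⟨σ r, ?_⟩
  have h := congrArg σK hr
  rw [σK_algebraMap] at h
  rw [← h, map_mul, map_mul, map_pow, σK_algebraMap, σK_σK, σ_z, map_ofNat]

theorem dvd_of_mul_eq (r s : R) (h : x ^ 6 * r = z ^ 6 * s) : x ^ 6 ∣ s := by
  -- coordinates over `A`
  have h1 : x ^ 6 * (z * r + x * s) = - (y ^ 7 * s) := by
    have e : z ^ 7 = - (x ^ 7 + y ^ 7) := by rw [eq_neg_iff_add_eq_zero, ← rel]; ring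
    calc x ^ 6 * (z * r + x * s) = z * (x ^ 6 * r) + x ^ 7 * s := by ring
      _ = z ^ 7 * s + x ^ 7 * s := by rw [h]; ring
      _ = - (y ^ 7 * s) := by rw [e]; ring
  let B := (AdjoinRoot.powerBasis' f_monic).basis
  have h2 : ∀ i, (MvPolynomial.X 0 : A) ^ 6 ∣ B.repr s i := by
    intro i
    have h3 : (MvPolynomial.X 0 : A) ^ 6 • (z * r + x * s) =
        - ((MvPolynomial.X 1 : A) ^ 7 • s) := by
      rw [Algebra.smul_def, Algebra.smul_def, map_pow, map_pow]
      exact h1
    have h4 := congrArg (fun u => B.repr u i) h3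
    simp only [map_smul, map_neg, Finsupp.smul_apply, Finsupp.neg_apply, smul_eq_mul] at h4
    have h5 : (MvPolynomial.X 0 : A) ^ 6 ∣ (MvPolynomial.X 1 : A) ^ 7 * B.repr s i := by
      rw [← dvd_neg, ← h4]
      exact dvd_mul_right _ _
    have hp : Prime (MvPolynomial.X 0 : A) := MvPolynomial.X_prime
    refine hp.pow_dvd_of_dvd_mul_left 6 ?_ h5
    intro h6
    have h7 := hp.dvd_of_dvd_pow h6
    rw [MvPolynomial.X_dvd_X] at h7
    simp at h7
  choose c hc using h2
  refine ⟨∑ i, c i • B i, ?_⟩
  have h3 : s = ∑ i, B.repr s i • B i := (B.sum_repr s).symm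
  conv_lhs => rw [h3]
  rw [Finset.mul_sum]
  apply Finset.sum_congr rfl
  intro i _
  rw [hc i, Algebra.smul_def, Algebra.smul_def, map_mul, map_pow]
  show _ = algebraMap A R (MvPolynomial.X 0) ^ 6 * _
  ring

theorem seven_mul_mem (w : KR) (hw : IsIntegral R w) : ∃ r : R, 7 * w = algebraMap R KR r := by
  obtain ⟨r1, h1⟩ := trace_step' w hw
  obtain ⟨r2, h2⟩ := trace_step_x w hw
  have h3 : x ^ 6 * r1 = z ^ 6 * r2 := by
    apply IsFractionRing.injective R KR
    rw [map_mul, map_mul, map_pow, map_pow, ← h1, ← h2]; ring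
  obtain ⟨t, ht⟩ := dvd_of_mul_eq _ _ h3
  refine ⟨t, ?_⟩
  have hx : algebraMap R KR x ^ 6 ≠ 0 :=
    pow_ne_zero _ (fun h => x_ne (IsFractionRing.injective R KR (by rw [map_zero]; exact h)))
  apply mul_left_cancel₀ hx
  rw [← map_pow, ← map_mul, ← ht, ← h2, map_pow]; ring

end Pool.Agent.R830.Spl
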