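import Mathlib
import Pool.Agent.R830.Spl.Defs
import Pool.Agent.R830.Spl.Key

/-! In a splinter domain of characteristic zero with `x^7+y^7+z^7 = 0` one has
`z^6 ∈ (p, x, y)` for primes `p ≥ 11`. -/

namespace Pool.Agent.R830.Spl

theorem mem_of_isSplinter (D : Type) [CommRing D] [IsDomain D] [CharZero D]
    (hD : IsSplinter D) (p : ℕ) [hp : Fact p.Prime] (hp11 : 11 ≤ p) (x y z : D)
    (hf : x ^ 7 + y ^ 7 + z ^ 7 = 0) :
    z ^ 6 ∈ Ideal.span {(p : D), x, y} := by
  let K := FractionRing D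
  let Ω := AlgebraicClosure K
  have hDK : Function.Injective (algebraMap D Ω) := by
    rw [IsScalarTower.algebraMap_eq D K Ω]
    exact (algebraMap K Ω).injective.comp (IsFractionRing.injective D K)
  have hp2 : 0 < p ^ 2 := pow_pos hp.out.pos 2
  obtain ⟨P, hP⟩ := IsAlgClosed.exists_pow_nat_eq (algebraMap D Ω (p : D)) hp2
  obtain ⟨X, hX⟩ := IsAlgClosed.exists_pow_nat_eq (algebraMap D Ω x) hp2
  obtain ⟨Y, hY⟩ := IsAlgClosed.exists_pow_nat_eq (algebraMap D Ω y) hp2
  obtain ⟨Z, hZ⟩ := IsAlgClosed.exists_pow_nat_eq (algebraMap D Ω z) hp2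
  have hint : ∀ (u : Ω) (d : D), u ^ (p ^ 2) = algebraMap D Ω d → IsIntegral D u := by
    intro u d h
    apply IsIntegral.of_pow hp2
    rw [h]
    exact isIntegral_algebraMap
  let T := integralClosure D Ω
  let P' : T := ⟨P, hint P _ hP⟩
  let X' : T := ⟨X, hint X _ hX⟩
  let Y' : T := ⟨Y, hint Y _ hY⟩
  let Z' : T := ⟨Z, hint Z _ hZ⟩
  have hP' : P' ^ (p ^ 2) = algebraMap D T (p : D) := Subtype.ext hP
  have hX' : X' ^ (p ^ 2) = algebraMap D T x := Subtype.ext hX
  have hY' : Y' ^ (p ^ 2) = algebraMap D T y := Subtype.ext hY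
  have hZ' : Z' ^ (p ^ 2) = algebraMap D T z := Subtype.ext hZ
  have hT : ∀ u v w : T, v ≠ 0 → u ^ p = v ^ p * w → v ∣ u := by
    intro u v w hv h
    have hv' : (v : Ω) ≠ 0 := fun h0 => hv (Subtype.ext h0)
    have h1 : ((u : Ω) / v) ^ p = w := by
      rw [div_pow, div_eq_iff (pow_ne_zero _ hv')]
      have := congrArg (fun t : T => (t : Ω)) h
      simp only [Subalgebra.coe_pow, Subalgebra.coe_mul] at this
      rw [this, mul_comm]
    have h2 : IsIntegral D ((u : Ω) / v) := by
      apply IsIntegral.of_pow hp.out.pos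
      rw [h1]
      exact w.2
    refine ⟨⟨(u : Ω) / v, h2⟩, Subtype.ext ?_⟩
    show (u : Ω) = (v : Ω) * ((u : Ω) / v)
    rw [mul_comm, div_mul_cancel₀ _ hv']
  have hpD : (p : D) ≠ 0 := by exact_mod_cast hp.out.ne_zero
  have hTinj : Function.Injective (algebraMap D T) := by
    intro a b hab
    apply hDK
    exact congrArg (fun t : T => (t : Ω)) hab
  have hP0 : P' ≠ 0 := by
    intro h0
    rw [h0, zero_pow hp2.ne'] at hP'
    exact hpD (hTinj (by rw [← hP', map_zero]))
  have key := key (T := T) p hp11 hT P' X' Y' Z' hP0 (by rw [hP', map_natCast]) (by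
    have e : ∀ u : T, u ^ (7 * p ^ 2) = (u ^ (p ^ 2)) ^ 7 := fun u => by ring
    rw [e, e, e, hX', hY', hZ', ← map_pow, ← map_pow, ← map_pow, ← map_add, ← map_add, hf,
      map_zero])
  have e6 : Z' ^ (6 * p ^ 2) = algebraMap D T (z ^ 6) := by
    rw [map_pow, ← hZ']; ring
  rw [e6, hP', hX', hY', Ideal.span, Submodule.mem_span_triple] at key
  obtain ⟨t0, t1, t2, ht⟩ := key
  -- the finite algebra
  let B := Algebra.adjoin D ({t0, t1, t2} : Set T)
  have hfin : Module.Finite D B :=
    Algebra.finite_adjoin_of_finite_of_isIntegral (by simp) (fun t _ => by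
      exact Algebra.IsIntegral.isIntegral t)
  have hBinj : Function.Injective (algebraMap D B) := by
    intro a b hab
    apply hTinj
    exact congrArg (fun t : B => (t : T)) hab
  have : FaithfulSMul D B := (faithfulSMul_iff_algebraMap_injective D B).mpr hBinj
  have hsurj : Function.Surjective (PrimeSpectrum.comap (algebraMap D B)) :=
    Algebra.IsIntegral.comap_surjective D B
  obtain ⟨ρ, hρ⟩ := hD.2 B hfin hsurj
  let b0 : B := ⟨t0, Algebra.subset_adjoin (by simp)⟩
  let b1 : B := ⟨t1, Algebra.subset_adjoin (by simp)⟩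
  let b2 : B := ⟨t2, Algebra.subset_adjoin (by simp)⟩
  have hB : (p : D) • b0 + x • b1 + y • b2 = (z ^ 6) • (1 : B) := by
    apply Subtype.ext
    show (p : D) • t0 + x • t1 + y • t2 = (z ^ 6) • (1 : T)
    rw [Algebra.smul_def, Algebra.smul_def, Algebra.smul_def, Algebra.smul_def, mul_one, ← ht]
    simp only [smul_eq_mul]
    ring
  have hfinal := congrArg ρ hB
  rw [map_add, map_add, map_smul, map_smul, map_smul, map_smul, hρ] at hfinal
  simp only [smul_eq_mul, mul_one] at hfinal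
  rw [← hfinal]
  have m0 : (p : D) ∈ Ideal.span {(p : D), x, y} := Ideal.subset_span (by simp)
  have m1 : x ∈ Ideal.span {(p : D), x, y} := Ideal.subset_span (by simp)
  have m2 : y ∈ Ideal.span {(p : D), x, y} := Ideal.subset_span (by simp)
  exact Ideal.add_mem _ (Ideal.add_mem _ (Ideal.mul_mem_right _ _ m0)
    (Ideal.mul_mem_right _ _ m1)) (Ideal.mul_mem_right _ _ m2)

end Pool.Agent.R830.Spl
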