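import Mathlib
import Pool.Agent.R830.Spl.Normal
import Pool.Agent.R830.Spl.NormalR
import Pool.Agent.R830.Spl.NotSpl

/-! Localizations of `Z[x,y,z]/(x^7+y^7+z^7)`. -/

namespace Pool.Agent.R830.Spl

theorem isSplinter_loc (P : Ideal R) [P.IsPrime] (hP : ∀ n : ℕ, n ≠ 0 → (n : R) ∉ P) :
    IsSplinter (Localization.AtPrime P) := by
  have hN : IsNoetherianRing R := Algebra.FiniteType.isNoetherianRing ℤ R
  have hND : IsNoetherianRing (Localization.AtPrime P) :=
    IsLocalization.isNoetherianRing P.primeCompl _ hN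
  have hdom : IsDomain (Localization.AtPrime P) :=
    IsLocalization.isDomain_localization P.primeCompl_le_nonZeroDivisors
  have hic : IsIntegrallyClosed (Localization.AtPrime P) := by
    rw [isIntegrallyClosed_iff KR]
    intro w hw
    obtain ⟨m, hm⟩ := IsIntegral.exists_multiple_integral_of_isLocalization P.primeCompl w hw
    obtain ⟨r, hr⟩ := seven_mul_mem _ hm
    have h7 : (7 : R) * m ∈ P.primeCompl := by
      apply P.primeCompl.mul_mem _ m.2
      have := hP 7 (by norm_num)
      exact_mod_cast this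
    refine ⟨IsLocalization.mk' _ r ⟨7 * m, h7⟩, ?_⟩
    have h0 : algebraMap R KR (7 * m) ≠ 0 := by
      intro h
      have h8 : (7 : R) * m = 0 := IsFractionRing.injective R KR (by rw [map_zero]; exact h)
      rw [h8] at h7
      exact h7 P.zero_mem
    apply mul_left_cancel₀ h0
    have hmk := IsLocalization.mk'_spec' (Localization.AtPrime P) r
      (⟨7 * m, h7⟩ : P.primeCompl)
    have h9 : algebraMap R KR (7 * m) * algebraMap (Localization.AtPrime P) KR
        (IsLocalization.mk' _ r ⟨7 * m, h7⟩) = algebraMap R KR r := by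
      rw [IsScalarTower.algebraMap_apply R (Localization.AtPrime P) KR, ← map_mul]
      have h10 := congrArg (algebraMap (Localization.AtPrime P) KR) hmk
      rw [← IsScalarTower.algebraMap_apply] at h10
      exact h10
    rw [h9, ← hr, map_mul, map_ofNat, Submonoid.smul_def, Algebra.smul_def]
    ring
  apply isSplinter_of_normal
  intro n hn
  have := IsLocalization.map_units (Localization.AtPrime P) (⟨(n : R), hP n hn⟩ : P.primeCompl)
  simpa using this

/-- the map `R → Z` killing `x, y, z` -/
noncomputable def ε : R →+* ℤ := liftR 0 0 0 (by norm_num)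

theorem ε_x : ε x = 0 := liftR_x ..
theorem ε_y : ε y = 0 := liftR_y ..
theorem ε_z : ε z = 0 := liftR_z ..

theorem mul_z6_notMem (p : ℕ) [hp : Fact p.Prime] (s : R)
    (h : s * z ^ 6 ∈ Ideal.span {(p : R), x, y}) : (p : ℤ) ∣ ε s := by
  let I : Ideal (Polynomial (ZMod p)) := Ideal.span {Polynomial.X ^ 7}
  let ψ : R →+* (Polynomial (ZMod p) ⧸ I) :=
    liftR 0 0 (Ideal.Quotient.mk I Polynomial.X) (by
      rw [← map_pow]
      have : Ideal.Quotient.mk I (Polynomial.X ^ 7) = 0 :=
        Ideal.Quotient.eq_zero_iff_mem.2 (Ideal.mem_span_singleton_self _)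
      rw [this]; norm_num)
  let e0 : (Polynomial (ZMod p) ⧸ I) →+* ZMod p :=
    Ideal.Quotient.lift I (Polynomial.evalRingHom 0) (by
      intro a ha
      obtain ⟨b, rfl⟩ := Ideal.mem_span_singleton.1 ha
      simp)
  have hcomp : e0.comp ψ = (Int.castRingHom (ZMod p)).comp ε := by
    apply hom_ext
    · simp [ψ, liftR_x, ε_x]
    · simp [ψ, liftR_y, ε_y]
    · simp [ψ, liftR_z, ε_z, e0]
  have hψ : ψ (s * z ^ 6) = 0 := by
    have hle : Ideal.span {(p : R), x, y} ≤ RingHom.ker ψ := by
      rw [Ideal.span_le]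
      intro u hu
      simp only [Set.mem_insert_iff, Set.mem_singleton_iff] at hu
      rw [SetLike.mem_coe, RingHom.mem_ker]
      rcases hu with rfl | rfl | rfl
      · rw [map_natCast]
        have : ((p : ℕ) : Polynomial (ZMod p) ⧸ I) =
            Ideal.Quotient.mk I (Polynomial.C ((p : ℕ) : ZMod p)) := by
          rw [map_natCast, map_natCast]
        rw [this, ZMod.natCast_self, map_zero, map_zero]
      · exact liftR_x ..
      · exact liftR_y ..
    exact hle h
  obtain ⟨S, hS⟩ := Ideal.Quotient.mk_surjective (ψ s)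
  have hz : ψ z = Ideal.Quotient.mk I Polynomial.X := liftR_z ..
  rw [map_mul, map_pow, hz, ← hS, ← map_pow, ← map_mul, Ideal.Quotient.eq_zero_iff_mem,
    Ideal.mem_span_singleton] at hψ
  have hX : (Polynomial.X : Polynomial (ZMod p)) ∣ S := by
    have : (Polynomial.X ^ 7 : Polynomial (ZMod p)) = Polynomial.X * Polynomial.X ^ 6 := by ring
    rw [this] at hψ
    exact (mul_dvd_mul_iff_right (pow_ne_zero _ Polynomial.X_ne_zero)).1 hψ
  have h1 : e0 (ψ s) = 0 := by
    rw [← hS]
    show Polynomial.eval 0 S = 0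
    obtain ⟨q, rfl⟩ := hX
    simp
  have h2 : ((ε s : ℤ) : ZMod p) = 0 := by
    have := congrArg (fun h : R →+* ZMod p => h s) hcomp
    simp only [RingHom.comp_apply] at this
    rw [h1] at this
    exact this.symm
  exact (ZMod.intCast_zmod_eq_zero_iff_dvd _ _).1 h2

theorem not_isSplinter_loc (p : ℕ) [hp : Fact p.Prime] (hp11 : 11 ≤ p) (P : Ideal R) [P.IsPrime]
    (hP : ∀ r : R, (p : ℤ) ∣ ε r → r ∈ P) : ¬ IsSplinter (Localization.AtPrime P) := by
  intro hs
  have hdom : IsDomain (Localization.AtPrime P) :=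
    IsLocalization.isDomain_localization P.primeCompl_le_nonZeroDivisors
  have hinj : Function.Injective (algebraMap R (Localization.AtPrime P)) :=
    IsLocalization.injective _ P.primeCompl_le_nonZeroDivisors
  have hchar : CharZero (Localization.AtPrime P) := by
    refine ⟨fun m n h => ?_⟩
    have : algebraMap R (Localization.AtPrime P) (m : R) =
      algebraMap R (Localization.AtPrime P) (n : R) := by simpa using h
    exact_mod_cast hinj this
  have h := mem_of_isSplinter (Localization.AtPrime P) hs p hp11 (algebraMap R _ x)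
    (algebraMap R _ y) (algebraMap R _ z) (by
      rw [← map_pow, ← map_pow, ← map_pow, ← map_add, ← map_add, rel, map_zero])
  have hmap : Ideal.span {((p : ℕ) : Localization.AtPrime P),
      algebraMap R (Localization.AtPrime P) x, algebraMap R (Localization.AtPrime P) y} =
      (Ideal.span {((p : ℕ) : R), x, y}).map (algebraMap R (Localization.AtPrime P)) := by
    rw [Ideal.map_span]
    congr 1
    simp [Set.image_insert_eq]
  rw [hmap, ← map_pow, IsLocalization.mem_map_algebraMap_iff P.primeCompl] at h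
  obtain ⟨⟨⟨i, hi⟩, s⟩, hs⟩ := h
  simp only at hs
  rw [← map_mul] at hs
  have h2 := hinj hs
  have h3 : (s : R) * z ^ 6 ∈ Ideal.span {(p : R), x, y} := by
    rw [mul_comm, h2]; exact hi
  exact s.2 (hP _ (mul_z6_notMem p _ h3))

theorem not_isOpen : ¬ IsOpen (splinterLocus R) := by
  intro hopen
  have h1 := hopen.preimage (PrimeSpectrum.continuous_comap ε)
  obtain ⟨t, ht⟩ := (PrimeSpectrum.isOpen_iff _).1 h1
  have hbot : (⊥ : PrimeSpectrum ℤ) ∈ PrimeSpectrum.comap ε ⁻¹' splinterLocus R := by
    show IsSplinter _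
    apply isSplinter_loc
    intro n hn h
    have h3 : ε (n : R) ∈ (⊥ : PrimeSpectrum ℤ).asIdeal := h
    rw [map_natCast] at h3
    simp at h3
    exact hn h3
  have hN : ∃ N ∈ t, N ≠ 0 := by
    by_contra hcon
    push Not at hcon
    have : (⊥ : PrimeSpectrum ℤ) ∈ PrimeSpectrum.zeroLocus t := by
      intro N hN
      rw [hcon N hN]
      exact Ideal.zero_mem _
    rw [← ht] at this
    exact this hbot
  obtain ⟨N, hNt, hN0⟩ := hN
  obtain ⟨p, hpge, hp⟩ := Nat.exists_infinite_primes (N.natAbs + 11)
  have : Fact p.Prime := ⟨hp⟩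
  have hprime : (Ideal.span {(p : ℤ)}).IsPrime := by
    rw [Ideal.span_singleton_prime (by exact_mod_cast hp.ne_zero)]
    exact Nat.prime_iff_prime_int.1 hp
  let q : PrimeSpectrum ℤ := ⟨Ideal.span {(p : ℤ)}, hprime⟩
  have hq : q ∈ PrimeSpectrum.comap ε ⁻¹' splinterLocus R := by
    by_contra hq
    have hq' : q ∈ PrimeSpectrum.zeroLocus t := by
      rw [← ht]; exact hq
    have h3 : N ∈ Ideal.span {(p : ℤ)} := hq' hNt
    rw [Ideal.mem_span_singleton] at h3
    have h4 := Int.natAbs_dvd_natAbs.2 h3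
    rw [Int.natAbs_natCast] at h4
    have := Nat.le_of_dvd (Int.natAbs_pos.2 hN0) h4
    omega
  refine not_isSplinter_loc p (by omega) (PrimeSpectrum.comap ε q).asIdeal ?_ hq
  intro r hr
  show ε r ∈ Ideal.span {(p : ℤ)}
  exact Ideal.mem_span_singleton.2 hr

end Pool.Agent.R830.Spl
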